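import Pool.Agent.J4H82.SN.GraphBound

/-!
# Sums of functions of single coordinates
-/

set_option autoImplicit false

namespace Pool.Agent.J4H82.SN

/-- a two-part split of a product into halves of moderate size -/
theorem exists_split {I : Type} [Fintype I] [DecidableEq I] (m : I → ℕ) (hm : ∀ i, 0 < m i)
    (B : ℝ) (hB : ∀ i, (m i : ℝ) ≤ B) (hN : ((∏ i, m i : ℕ) : ℝ) ^ 2 ≤ B ^ 3) (hB1 : 1 ≤ B) :
    ∃ J : Finset I, ((∏ i ∈ J, m i : ℕ) : ℝ) ≤ B ∧ ((∏ i ∈ Jᶜ, m i : ℕ) : ℝ) ≤ B := by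
  set N := ∏ i, m i with hNdef
  have hNpos : 0 < N := Finset.prod_pos fun i _ => hm i
  have hsplit : ∀ J : Finset I, (∏ i ∈ J, m i) * (∏ i ∈ Jᶜ, m i) = N :=
    fun J => Finset.prod_mul_prod_compl J m
  have hposJ : ∀ J : Finset I, 0 < ∏ i ∈ J, m i := fun J => Finset.prod_pos fun i _ => hm i
  have hB0 : 0 ≤ B := by linarith
  have hcube : ∀ x : ℕ, (x : ℝ) ^ 3 ≤ B ^ 3 → (x : ℝ) ≤ B := by
    intro x hx
    exact le_of_pow_le_pow_left₀ (by norm_num) hB0 hx
  -- the complement of a set with a large product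
  have hcompl : ∀ J : Finset I, N ≤ (∏ i ∈ J, m i) ^ 3 → ((∏ i ∈ Jᶜ, m i : ℕ) : ℝ) ≤ B := by
    intro J hJ
    apply hcube
    refine le_trans ?_ hN
    have h1 : (∏ i ∈ Jᶜ, m i) ^ 3 ≤ N ^ 2 := by
      have h2 : N * (∏ i ∈ Jᶜ, m i) ^ 3 ≤ N * N ^ 2 := by
        calc N * (∏ i ∈ Jᶜ, m i) ^ 3 ≤ (∏ i ∈ J, m i) ^ 3 * (∏ i ∈ Jᶜ, m i) ^ 3 :=
              Nat.mul_le_mul_right _ hJ
          _ = N * N ^ 2 := by rw [← mul_pow, hsplit]; ring
      exact Nat.le_of_mul_le_mul_left h2 hNpos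
    exact_mod_cast h1
  by_cases hbig : ∃ i, N ≤ (m i) ^ 3
  · obtain ⟨i, hi⟩ := hbig
    refine ⟨{i}, ?_, hcompl _ ?_⟩
    · rw [Finset.prod_singleton]
      exact hB i
    · rw [Finset.prod_singleton]
      exact hi
  · push Not at hbig
    -- a minimal set with a large product
    have hex : ∃ J : Finset I, N ≤ (∏ i ∈ J, m i) ^ 3 := by
      refine ⟨Finset.univ, ?_⟩
      exact Nat.le_self_pow (by norm_num) N
    obtain ⟨J, hJ, hmin⟩ := Finset.exists_min_image
      (Finset.univ.filter fun J : Finset I => N ≤ (∏ i ∈ J, m i) ^ 3) Finset.card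
      (by obtain ⟨J, hJ⟩ := hex; exact ⟨J, by rw [Finset.mem_filter]; exact ⟨Finset.mem_univ _, hJ⟩⟩)
    rw [Finset.mem_filter] at hJ
    refine ⟨J, ?_, hcompl _ hJ.2⟩
    rcases Finset.eq_empty_or_nonempty J with h0 | ⟨i, hi⟩
    · rw [h0, Finset.prod_empty]
      exact_mod_cast hB1
    · have h1 : (∏ j ∈ J.erase i, m j) ^ 3 < N := by
        by_contra hcon
        rw [not_lt] at hcon
        have := hmin (J.erase i) (by rw [Finset.mem_filter]; exact ⟨Finset.mem_univ _, hcon⟩)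
        have h2 := Finset.card_erase_lt_of_mem hi
        omega
      apply hcube
      refine le_trans ?_ hN
      have h3 : (∏ j ∈ J, m j) ^ 3 ≤ N ^ 2 := by
        rw [← Finset.mul_prod_erase J m hi, mul_pow, sq]
        exact Nat.mul_le_mul (hbig i).le h1.le
      exact_mod_cast h3

/-- adjacency given by a sum of two terms, each of which ignores one of the vertices up to a
hint -/
theorem value_edges_le {V K1 K2 : Type} [Fintype V] [Fintype K1] [Fintype K2] (G : SimpleGraph V)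
    (κ : V → K1) (μ : V → K2) {Γ : Type} [AddCommGroup Γ] (F1 : V → K2 → Γ) (F2 : K1 → V → Γ)
    (S : Finset Γ) (hadj : ∀ u v, u ≠ v → (G.Adj u v ↔ F1 u (μ v) + F2 (κ u) v ∈ S))
    (s t : ℕ) (hfree : (completeBipartiteGraph (Fin s) (Fin t)).Free G) :
    2 * Nat.card G.edgeSet ≤
      S.card * ((s + t - 1) * (Fintype.card V * (Fintype.card K1 + Fintype.card K2))) := by
  classical
  let T : Set Γ := Set.range (fun z : V × K2 => F1 z.1 z.2) ∪
    Set.range (fun z : {x // x ∈ S} × (K1 × V) => z.1.1 - F2 z.2.1 z.2.2)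
  have hT : T.Finite := (Set.finite_range _).union (Set.finite_range _)
  obtain ⟨enc, henc⟩ := Set.countable_iff_exists_injOn.1 hT.countable
  let el : Fin S.card → {x // x ∈ S} := S.equivFin.symm
  let π : Fin S.card → Prot (V × K2) (K1 × V) := fun i =>
    Prot.ask (fun a => enc (F1 a.1 a.2)) (fun b => enc ((el i).1 - F2 b.1 b.2)) (Prot.answer true)
      (Prot.answer false)
  have hπ : ∀ i a b, (π i).Accepts a b ↔ F1 a.1 a.2 + F2 b.1 b.2 = (el i).1 := by
    intro i a b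
    simp only [π, Prot.Accepts, and_true, Bool.false_eq_true, and_false, or_false]
    rw [henc.eq_iff (Set.mem_union_left _ ⟨a, rfl⟩) (Set.mem_union_right _ ⟨(el i, b), rfl⟩)]
    exact eq_sub_iff_add_eq
  have hd : Described G κ μ S.card π := by
    intro u v huv
    rw [hadj u v huv]
    constructor
    · intro h
      refine ⟨S.equivFin ⟨_, h⟩, ?_⟩
      rw [hπ]
      simp only [el, Equiv.symm_apply_apply]
    · rintro ⟨i, hi⟩
      rw [hπ] at hi
      rw [hi]
      exact (el i).2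
  have hmain := edges_le_weight G κ μ S.card π hd s t hfree
  have hw : ∑ i, (π i).weight = S.card := by
    have : ∀ i, (π i).weight = 1 := fun i => rfl
    simp [this]
  rwa [hw] at hmain

/-- **Sums of functions of single coordinates.** -/
theorem sum_edges_le {V : Type} [Fintype V] {I : Type} [Fintype I] {W : I → Type}
    [∀ i, Fintype (W i)] (G : SimpleGraph V) (ν : V → ∀ i, W i)
    {Γ : Type} [AddCommGroup Γ] (f : ∀ i, W i → W i → Γ) (S : Finset Γ)
    (hadj : ∀ u v, u ≠ v → (G.Adj u v ↔ ∑ i, f i (ν u i) (ν v i) ∈ S))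
    (s t : ℕ) (hfree : (completeBipartiteGraph (Fin s) (Fin t)).Free G)
    (B : ℝ) (hB : ∀ i, (Fintype.card (W i) : ℝ) ≤ B)
    (hN : ((∏ i, Fintype.card (W i) : ℕ) : ℝ) ^ (2 / 3 : ℝ) ≤ B) :
    (Nat.card G.edgeSet : ℝ) ≤ S.card * (s + t - 1 : ℕ) * (Fintype.card V * B) := by
  classical
  rcases isEmpty_or_nonempty V with hV | ⟨⟨v₀⟩⟩
  · have h0 : Nat.card G.edgeSet = 0 := by
      have : IsEmpty G.edgeSet := ⟨fun e => by
        obtain ⟨e, he⟩ := e
        revert he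
        refine Sym2.ind (fun a _ _ => ?_) e
        exact hV.elim a⟩
      exact Nat.card_of_isEmpty
    rw [h0, Fintype.card_eq_zero (α := V)]
    simp
  have hpos : ∀ i, 0 < Fintype.card (W i) := fun i => Fintype.card_pos_iff.2 ⟨ν v₀ i⟩
  have hN1 : (1 : ℝ) ≤ ((∏ i, Fintype.card (W i) : ℕ) : ℝ) := by
    have h1 : 1 ≤ ∏ i, Fintype.card (W i) := Finset.prod_pos fun i _ => hpos i
    exact_mod_cast h1
  have hB1 : 1 ≤ B := le_trans (Real.one_le_rpow hN1 (by norm_num)) hN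
  have hN' : ((∏ i, Fintype.card (W i) : ℕ) : ℝ) ^ 2 ≤ B ^ 3 := by
    have h2 : (((∏ i, Fintype.card (W i) : ℕ) : ℝ) ^ (2 / 3 : ℝ)) ^ 3 =
        ((∏ i, Fintype.card (W i) : ℕ) : ℝ) ^ 2 := by
      rw [← Real.rpow_natCast _ 3, ← Real.rpow_mul (by linarith),
        ← Real.rpow_natCast ((∏ i, Fintype.card (W i) : ℕ) : ℝ) 2]
      norm_num
    rw [← h2]
    gcongr
  obtain ⟨J, hJ1, hJ2⟩ := exists_split (fun i => Fintype.card (W i)) hpos B hB hN' hB1
  let K2 := ∀ i : {i // i ∈ J}, W i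
  let K1 := ∀ i : {i // ¬ i ∈ J}, W i
  let μ : V → K2 := fun v i => ν v i
  let κ : V → K1 := fun v i => ν v i
  let F1 : V → K2 → Γ := fun u y => ∑ i : {i // i ∈ J}, f i.1 (ν u i) (y i)
  let F2 : K1 → V → Γ := fun x v => ∑ i : {i // ¬ i ∈ J}, f i.1 (x i) (ν v i)
  have hmain := value_edges_le G κ μ F1 F2 S (by
    intro u v huv
    rw [hadj u v huv]
    have hsum : ∑ i, f i (ν u i) (ν v i) = F1 u (μ v) + F2 (κ u) v := by
      rw [← Fintype.sum_subtype_add_sum_subtype (fun i => i ∈ J)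
        (fun i => f i (ν u i) (ν v i))]
      simp only [F1, F2, μ, κ]
      congr 2
      ext x
      simp
    rw [hsum]) s t hfree
  have hc2 : Fintype.card K2 = ∏ i ∈ J, Fintype.card (W i) := by
    rw [Fintype.card_pi]
    exact Finset.prod_coe_sort J (fun i => Fintype.card (W i))
  have hc1 : Fintype.card K1 = ∏ i ∈ Jᶜ, Fintype.card (W i) := by
    rw [Fintype.card_pi]
    exact (Finset.prod_subtype Jᶜ (fun i => by rw [Finset.mem_compl])
      (fun i => Fintype.card (W i))).symm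
  have h1 : (Fintype.card K1 : ℝ) ≤ B := by rw [hc1]; exact hJ2
  have h2 : (Fintype.card K2 : ℝ) ≤ B := by rw [hc2]; exact hJ1
  have h3 : (2 : ℝ) * (Nat.card G.edgeSet : ℝ) ≤ S.card * ((s + t - 1 : ℕ) *
      (Fintype.card V * (Fintype.card K1 + Fintype.card K2))) := by exact_mod_cast hmain
  have h4 : (2 : ℝ) * (Nat.card G.edgeSet : ℝ) ≤
      S.card * ((s + t - 1 : ℕ) * (Fintype.card V * (B + B))) := by
    refine h3.trans ?_
    gcongr
  linarith

/-- coordinates of the same size: the exponent is at most `5 / 3` -/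
theorem sum_edges_le_pow {V : Type} [Fintype V] {k q : ℕ} (hk : 2 ≤ k) (G : SimpleGraph V)
    (ν : V → Fin k → Fin q) {Γ : Type} [AddCommGroup Γ] (f : Fin k → Fin q → Fin q → Γ)
    (S : Finset Γ)
    (hadj : ∀ u v, u ≠ v → (G.Adj u v ↔ ∑ i, f i (ν u i) (ν v i) ∈ S))
    (s t : ℕ) (hfree : (completeBipartiteGraph (Fin s) (Fin t)).Free G)
    (D : ℝ) (hD0 : 0 ≤ D) (hD : (q : ℝ) ^ k ≤ D * Fintype.card V) :
    (Nat.card G.edgeSet : ℝ) ≤
      S.card * (s + t - 1 : ℕ) * (D ^ (2 / 3 : ℝ) * (Fintype.card V : ℝ) ^ (5 / 3 : ℝ)) := by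
  have hprod : ((∏ _i : Fin k, Fintype.card (Fin q) : ℕ) : ℝ) = (q : ℝ) ^ k := by
    simp
  have h1 := sum_edges_le (W := fun _ : Fin k => Fin q) G ν f S hadj s t hfree
    (((q : ℝ) ^ k) ^ (2 / 3 : ℝ)) (by
      intro i
      rw [Fintype.card_fin]
      rcases Nat.eq_zero_or_pos q with h0 | h0
      · subst h0
        rw [Nat.cast_zero]
        positivity
      · have h1 : (1 : ℝ) ≤ q := by exact_mod_cast h0
        rw [← Real.rpow_natCast, ← Real.rpow_mul (by positivity)]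
        calc (q : ℝ) = (q : ℝ) ^ (1 : ℝ) := (Real.rpow_one _).symm
          _ ≤ _ := Real.rpow_le_rpow_of_exponent_le h1 (by
            have : (2 : ℝ) ≤ k := by exact_mod_cast hk
            linarith)) (by rw [hprod])
  refine h1.trans ?_
  have h2 : ((q : ℝ) ^ k) ^ (2 / 3 : ℝ) ≤ (D * Fintype.card V) ^ (2 / 3 : ℝ) :=
    Real.rpow_le_rpow (by positivity) hD (by norm_num)
  rw [Real.mul_rpow hD0 (Nat.cast_nonneg _)] at h2
  have h3 : (Fintype.card V : ℝ) ^ (5 / 3 : ℝ) =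
      Fintype.card V * (Fintype.card V : ℝ) ^ (2 / 3 : ℝ) := by
    rw [← Real.rpow_one_add' (Nat.cast_nonneg _) (by norm_num)]
    norm_num
  rw [h3]
  calc (S.card : ℝ) * (s + t - 1 : ℕ) * (Fintype.card V * ((q : ℝ) ^ k) ^ (2 / 3 : ℝ)) ≤
        S.card * (s + t - 1 : ℕ) *
          (Fintype.card V * (D ^ (2 / 3 : ℝ) * (Fintype.card V : ℝ) ^ (2 / 3 : ℝ))) := by gcongr
    _ = _ := by ring

end Pool.Agent.J4H82.SN
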