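import Mathlib

/-!
# Equality protocols with hints: definitions
-/

set_option autoImplicit false

namespace Pool.Agent.J4H82.SN

/-- A decision tree for two players, the first holding `a : A`, the second holding `b : B`.
At an inner node each player computes a label (a number) from their own input and they are told
whether the two labels are equal; this decides the branch they follow.  (A node in which one player
announces one bit is the case in which the other player's label is constant.) -/
inductive Prot (A B : Type) : Type
  | answer (r : Bool) : Prot A B
  | ask (f : A → ℕ) (g : B → ℕ) (yes no : Prot A B) : Prot A B

namespace Prot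

variable {A B : Type}

/-- the protocol ends in an accepting leaf on the inputs `a`, `b` -/
def Accepts : Prot A B → A → B → Prop
  | answer r, _, _ => r = true
  | ask f g yes no, a, b => (f a = g b ∧ yes.Accepts a b) ∨ (f a ≠ g b ∧ no.Accepts a b)

/-- the largest number of equality questions asked on a path -/
def cost : Prot A B → ℕ
  | answer _ => 0
  | ask _ _ yes no => 1 + max yes.cost no.cost

end Prot

/-- For different vertices `u`, `v`, adjacency is the union of `L` relations, each decided by an
equality protocol between a player who knows the vertex `u` and the hint `μ v` about `v`, and a
player who knows the hint `κ u` about `u` and the vertex `v`. -/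
def Described {V K1 K2 : Type} (G : SimpleGraph V) (κ : V → K1) (μ : V → K2) (L : ℕ)
    (π : Fin L → Prot (V × K2) (K1 × V)) : Prop :=
  ∀ u v, u ≠ v → (G.Adj u v ↔ ∃ i, (π i).Accepts (u, μ v) (κ u, v))

end Pool.Agent.J4H82.SN
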