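import Pool.Agent.J4H82.SN.Rect

/-!
# Graphs described by equality protocols with hints
-/

set_option autoImplicit false

namespace Pool.Agent.J4H82.SN

theorem thin_of_free {V : Type} {G : SimpleGraph V} {s t : ℕ}
    (hfree : (completeBipartiteGraph (Fin s) (Fin t)).Free G) {R : V → V → Prop}
    (P Q : Finset V) (hR : ∀ u ∈ P, ∀ v ∈ Q, u ≠ v → R u v → G.Adj u v) :
    Thin R P Q (s + t - 1) := by
  classical
  intro P' hP' Q' hQ' hall
  by_contra hcon
  rw [not_or, not_le, not_le] at hcon
  obtain ⟨h1, h2⟩ := hcon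
  obtain ⟨P₀, hP₀, hcard⟩ := Finset.exists_subset_card_eq (show s ≤ P'.card by omega)
  have h4 : t ≤ (Q' \ P₀).card := by
    have := Finset.le_card_sdiff P₀ Q'
    omega
  obtain ⟨e₁⟩ : Nonempty (Fin s ↪ {x // x ∈ P₀}) :=
    Function.Embedding.nonempty_of_card_le (by
      rw [Fintype.card_fin, Fintype.card_coe]; exact hcard.ge)
  obtain ⟨e₂⟩ : Nonempty (Fin t ↪ {x // x ∈ Q' \ P₀}) :=
    Function.Embedding.nonempty_of_card_le (by
      rw [Fintype.card_fin, Fintype.card_coe]; exact h4)
  have hne : ∀ i j, ((e₁ i : {x // x ∈ P₀}) : V) ≠ (e₂ j : {x // x ∈ Q' \ P₀}) := by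
    intro i j h
    have h5 := (Finset.mem_sdiff.1 (e₂ j).2).2
    rw [← h] at h5
    exact h5 (e₁ i).2
  have hadj : ∀ i j, G.Adj (e₁ i : {x // x ∈ P₀}) (e₂ j : {x // x ∈ Q' \ P₀}) := by
    intro i j
    have h5 := hP₀ (e₁ i).2
    have h6 := (Finset.mem_sdiff.1 (e₂ j).2).1
    exact hR _ (hP' h5) _ (hQ' h6) (hne i j) (hall _ h5 _ h6)
  apply hfree
  refine ⟨⟨⟨Sum.elim (fun i => ((e₁ i : {x // x ∈ P₀}) : V))
    (fun j => ((e₂ j : {x // x ∈ Q' \ P₀}) : V)), ?_⟩, ?_⟩⟩
  · rintro (i | i) (j | j) hij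
    · simp at hij
    · exact hadj i j
    · exact (hadj j i).symm
    · simp at hij
  · rintro (i | i) (j | j) hij
    · exact congrArg Sum.inl (e₁.injective (Subtype.ext hij))
    · exact absurd hij (hne i j)
    · exact absurd hij.symm (hne j i)
    · exact congrArg Sum.inr (e₂.injective (Subtype.ext hij))

theorem two_card_edges {V : Type} [Fintype V] [DecidableEq V] (G : SimpleGraph V)
    [DecidableRel G.Adj] :
    2 * Nat.card G.edgeSet = (Finset.univ.filter fun z : V × V => G.Adj z.1 z.2).card := by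
  rw [Nat.card_eq_fintype_card, ← SimpleGraph.edgeFinset_card,
    ← SimpleGraph.sum_degrees_eq_twice_card_edges]
  rw [Finset.card_eq_sum_card_fiberwise (f := fun z : V × V => z.1) (t := Finset.univ)
    (fun _ _ => Finset.mem_coe.2 (Finset.mem_univ _))]
  refine Finset.sum_congr rfl fun v _ => ?_
  rw [← SimpleGraph.card_neighborFinset_eq_degree]
  refine Finset.card_bij (fun w _ => (v, w)) ?_ ?_ ?_
  · intro w hw
    rw [SimpleGraph.mem_neighborFinset] at hw
    simp [hw]
  · intro w _ w' _ h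
    exact (Prod.mk.injEq _ _ _ _ ▸ h).2
  · rintro ⟨a, b⟩ h
    simp only [Finset.mem_filter, Finset.mem_univ, true_and] at h
    refine ⟨b, ?_, ?_⟩
    · rw [SimpleGraph.mem_neighborFinset, ← h.2]
      exact h.1
    · rw [h.2]

/-- **Few edges.**  A `K_{s,t}`-free graph in which adjacency is a union of `L` relations decided
by protocols with hints has few edges. -/
theorem edges_le_weight {V K1 K2 : Type} [Fintype V] [Fintype K1] [Fintype K2]
    (G : SimpleGraph V) (κ : V → K1) (μ : V → K2) (L : ℕ) (π : Fin L → Prot (V × K2) (K1 × V))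
    (hadj : Described G κ μ L π) (s t : ℕ)
    (hfree : (completeBipartiteGraph (Fin s) (Fin t)).Free G) :
    2 * Nat.card G.edgeSet ≤ (∑ i, (π i).weight) *
      ((s + t - 1) * (Fintype.card V * (Fintype.card K1 + Fintype.card K2))) := by
  classical
  rw [two_card_edges]
  set D : Fin L → Finset (V × V) := fun i => Finset.univ.filter fun z =>
    (π i).Accepts (z.1, μ z.2) (κ z.1, z.2) with hD
  have h1 : (Finset.univ.filter fun z : V × V => G.Adj z.1 z.2) ⊆ Finset.univ.biUnion D := by
    intro z hz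
    rw [Finset.mem_filter] at hz
    obtain ⟨i, hi⟩ := (hadj z.1 z.2 hz.2.ne).1 hz.2
    rw [Finset.mem_biUnion]
    exact ⟨i, Finset.mem_univ _, by rw [hD, Finset.mem_filter]; exact ⟨Finset.mem_univ _, hi⟩⟩
  set P : K1 → Finset V := fun x => Finset.univ.filter fun u => κ u = x with hP
  set Q : K2 → Finset V := fun y => Finset.univ.filter fun v => μ v = y with hQ
  have hsumP : ∑ x, (P x).card = Fintype.card V := by
    rw [← Finset.card_univ, Finset.card_eq_sum_card_fiberwise (f := κ)
      (t := Finset.univ) (fun _ _ => Finset.mem_coe.2 (Finset.mem_univ _))]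
  have hsumQ : ∑ y, (Q y).card = Fintype.card V := by
    rw [← Finset.card_univ, Finset.card_eq_sum_card_fiberwise (f := μ)
      (t := Finset.univ) (fun _ _ => Finset.mem_coe.2 (Finset.mem_univ _))]
  have h2 : ∀ i, (D i).card ≤ (π i).weight *
      ((s + t - 1) * (Fintype.card V * (Fintype.card K1 + Fintype.card K2))) := by
    intro i
    have e1 : (D i).card ≤
        ∑ q : K1 × K2, (π i).weight * (s + t - 1) * ((P q.1).card + (Q q.2).card) := by
      rw [Finset.card_eq_sum_card_fiberwise (f := fun z : V × V => (κ z.1, μ z.2))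
        (t := Finset.univ) (fun _ _ => Finset.mem_coe.2 (Finset.mem_univ _))]
      refine Finset.sum_le_sum fun q _ => ?_
      set ρ : Prot V V := (π i).pull (fun u => (u, q.2)) (fun v => (q.1, v)) with hρ
      have e2 : ((D i).filter fun z : V × V => (κ z.1, μ z.2) = q).card ≤
          num ρ.Accepts (P q.1) (Q q.2) := by
        unfold num
        apply Finset.card_le_card
        intro z hz
        simp only [hD, hP, hQ, Finset.mem_filter, Finset.mem_product, Finset.mem_univ,
          true_and] at hz ⊢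
        obtain ⟨hz1, hz2⟩ := hz
        rw [Prod.ext_iff] at hz2
        simp only at hz2
        refine ⟨hz2, ?_⟩
        rw [hρ, Prot.pull_accepts]
        rw [← hz2.1, ← hz2.2]
        exact hz1
      have e3 : Thin ρ.Accepts (P q.1) (Q q.2) (s + t - 1) := by
        refine thin_of_free hfree _ _ ?_
        intro u hu v hv huv h
        simp only [hP, hQ, Finset.mem_filter, Finset.mem_univ, true_and] at hu hv
        rw [hρ, Prot.pull_accepts, ← hu, ← hv] at h
        exact (hadj u v huv).2 ⟨i, h⟩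
      refine e2.trans ((num_le ρ _ _ _ e3).trans ?_)
      rw [hρ, Prot.pull_weight]
    refine e1.trans (le_of_eq ?_)
    rw [← Finset.mul_sum, mul_assoc]
    congr 2
    rw [Fintype.sum_prod_type]
    simp only [Finset.sum_add_distrib, Finset.sum_const, Finset.card_univ, smul_eq_mul]
    rw [hsumQ, ← Finset.mul_sum, hsumP]
    ring
  calc (Finset.univ.filter fun z : V × V => G.Adj z.1 z.2).card ≤ (Finset.univ.biUnion D).card :=
        Finset.card_le_card h1
    _ ≤ ∑ i, (D i).card := Finset.card_biUnion_le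
    _ ≤ ∑ i : Fin L, (π i).weight *
          ((s + t - 1) * (Fintype.card V * (Fintype.card K1 + Fintype.card K2))) :=
        Finset.sum_le_sum fun i _ => h2 i
    _ = _ := by rw [Finset.sum_mul]

/-- the same for protocols with at most `c` questions -/
theorem edges_le {V K1 K2 : Type} [Fintype V] [Fintype K1] [Fintype K2] (G : SimpleGraph V)
    (κ : V → K1) (μ : V → K2) (L : ℕ) (π : Fin L → Prot (V × K2) (K1 × V))
    (hadj : Described G κ μ L π)
    (c : ℕ) (hc : ∀ i, (π i).cost ≤ c) (s t : ℕ)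
    (hfree : (completeBipartiteGraph (Fin s) (Fin t)).Free G) :
    2 * Nat.card G.edgeSet ≤
      L * (3 ^ c * (s + t - 1) * (Fintype.card V * (Fintype.card K1 + Fintype.card K2))) := by
  refine (edges_le_weight G κ μ L π hadj s t hfree).trans ?_
  have h1 : ∑ i, (π i).weight ≤ L * 3 ^ c := by
    calc ∑ i, (π i).weight ≤ ∑ _i : Fin L, 3 ^ c := by
          refine Finset.sum_le_sum fun i _ => ?_
          exact (π i).weight_le.trans (Nat.pow_le_pow_right (by norm_num) (hc i))
      _ = L * 3 ^ c := by rw [Finset.sum_const, Finset.card_univ, Fintype.card_fin, smul_eq_mul]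
  refine (Nat.mul_le_mul_right _ h1).trans (le_of_eq ?_)
  ring

/-- the real form: a graph with `e ≥ c₀ n ^ (2 - 1 / s)` edges needs many hints or many
questions -/
theorem hints_ge {V K1 K2 : Type} [Fintype V] [Fintype K1] [Fintype K2] (G : SimpleGraph V)
    (κ : V → K1) (μ : V → K2) (L : ℕ) (π : Fin L → Prot (V × K2) (K1 × V))
    (hadj : Described G κ μ L π)
    (c : ℕ) (hc : ∀ i, (π i).cost ≤ c) (s t : ℕ) (hs : 1 ≤ s)
    (hfree : (completeBipartiteGraph (Fin s) (Fin t)).Free G) (c₀ : ℝ)
    (he : c₀ * (Fintype.card V : ℝ) ^ (2 - 1 / (s : ℝ)) ≤ Nat.card G.edgeSet) (hV : Nonempty V) :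
    c₀ * (Fintype.card V : ℝ) ^ (1 - 1 / (s : ℝ)) ≤
      L * 3 ^ c * (s + t - 1 : ℕ) * max (Fintype.card K1 : ℝ) (Fintype.card K2) := by
  have h1 := edges_le G κ μ L π hadj c hc s t hfree
  have hn : (0 : ℝ) < Fintype.card V := by exact_mod_cast Fintype.card_pos
  have h2 : (2 : ℝ) * Nat.card G.edgeSet ≤ L * (3 ^ c * (s + t - 1 : ℕ) *
      (Fintype.card V * (Fintype.card K1 + Fintype.card K2))) := by exact_mod_cast h1
  set M := max (Fintype.card K1 : ℝ) (Fintype.card K2) with hM
  have h3 : (Fintype.card K1 : ℝ) + Fintype.card K2 ≤ 2 * M := by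
    have := le_max_left (Fintype.card K1 : ℝ) (Fintype.card K2)
    have := le_max_right (Fintype.card K1 : ℝ) (Fintype.card K2)
    linarith
  have h4 : (2 : ℝ) * Nat.card G.edgeSet ≤ L * (3 ^ c * (s + t - 1 : ℕ) *
      (Fintype.card V * (2 * M))) := by
    refine h2.trans ?_
    gcongr
  have h5 : (Fintype.card V : ℝ) ^ (2 - 1 / (s : ℝ)) =
      Fintype.card V * (Fintype.card V : ℝ) ^ (1 - 1 / (s : ℝ)) := by
    rw [← Real.rpow_one_add' hn.le]
    · congr 1
      ring
    · have : 1 / (s : ℝ) ≤ 1 := by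
        rw [div_le_one (by exact_mod_cast hs)]
        exact_mod_cast hs
      linarith
  rw [h5] at he
  refine le_of_mul_le_mul_left ?_ hn
  calc (Fintype.card V : ℝ) * (c₀ * (Fintype.card V : ℝ) ^ (1 - 1 / (s : ℝ))) =
        c₀ * (Fintype.card V * (Fintype.card V : ℝ) ^ (1 - 1 / (s : ℝ))) := by ring
    _ ≤ Nat.card G.edgeSet := he
    _ ≤ _ := by
      have : (Nat.card G.edgeSet : ℝ) ≤
        L * (3 ^ c * (s + t - 1 : ℕ) * (Fintype.card V * M)) := by linarith
      refine this.trans (le_of_eq ?_)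
      ring

end Pool.Agent.J4H82.SN
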