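import Pool.Agent.J4H82.SN.GraphBound
import Pool.Agent.W834.NG.Sol
import Pool.Agent.W834.NG.Graph

/-!
# Projective norm graphs contain no `K_{s,t}`
-/

set_option autoImplicit false

namespace Pool.Agent.J4H82.SN

open Pool.Agent.W834.NG

/-- `m + 1` norm equations have at most `m !` common solutions (Alon, Kollár, Rónyai, Szabó) -/
theorem norm_sol {K : Type} [Field K] {m : ℕ} (hm : 0 < m) (φ : K →+* K) (c : Fin (m + 1) → K)
    (hc : Function.Injective c) (a : Fin (m + 1) → K) (S : Finset K) (b : K → K)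
    (hS : ∀ s ∈ S, ∀ i, ∏ j : Fin m, φ^[j] (s + c i) = a i * b s) : S.card ≤ m.factorial := by
  classical
  refine (card_le_F hm φ c a Finset.univ S b (fun s hs i _ => hS s hs i)).trans ?_
  obtain ⟨n, rfl⟩ : ∃ n, m = n + 1 := ⟨m - 1, by omega⟩
  refine F_triv _ n Finset.univ ?_ ?_ Finset.univ ∅ ?_ ?_
  · intro k i _ i' _ h
    apply hc
    have hinj : Function.Injective (φ^[(k : ℕ)]) := Function.Injective.iterate φ.injective k
    exact hinj h
  · simp
  · exact Finset.disjoint_empty_right _
  · simp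

theorem PG_noK' {K : Type} [Field K] (φ : K →+* K) {m : ℕ} (hm : 0 < m) {s t : ℕ}
    (hs : m + 1 ≤ s) (ht : m.factorial < t) : NoK (PG φ m) s t := by
  classical
  rintro ⟨x', y, hx', hy, hadj'⟩
  have ht0 : 0 < t := by omega
  set x : Fin (m + 1) → K × AA φ := fun i => x' (Fin.castLE hs i) with hxdef
  have hx : Function.Injective x := fun i j h => Fin.castLE_injective hs (hx' h)
  have hadj : ∀ i j, (PG φ m).Adj (x i) (y j) := fun i j => hadj' _ j
  have hxa : ∀ i, (x i).2.1 ≠ 0 := fun i => (x i).2.2.1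
  have hyb : ∀ j, (y j).2.1 ≠ 0 := fun j => (y j).2.2.1
  have hN : ∀ i j, Nm φ m ((x i).1 + (y j).1) = (x i).2.1 * (y j).2.1 := fun i j => (hadj i j).2
  have hX : Function.Injective fun i => (x i).1 := by
    intro i k hik
    apply hx
    have h1 := hN i ⟨0, ht0⟩
    have h2 := hN k ⟨0, ht0⟩
    simp only at hik
    rw [hik, h2] at h1
    have h3 : (x k).2.1 = (x i).2.1 := mul_right_cancel₀ (hyb ⟨0, ht0⟩) h1
    exact Prod.ext hik (Subtype.ext h3.symm)
  have hY : Function.Injective fun j => (y j).1 := by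
    intro i k hik
    apply hy
    have h1 := hN 0 i
    have h2 := hN 0 k
    simp only at hik
    rw [hik, h2] at h1
    have h3 : (y k).2.1 = (y i).2.1 := mul_left_cancel₀ (hxa 0) h1
    exact Prod.ext hik (Subtype.ext h3.symm)
  have hb : ∀ j, Nm φ m ((y j).1 + (x 0).1) / (x 0).2.1 = (y j).2.1 := by
    intro j
    rw [add_comm, hN, mul_div_cancel_left₀ _ (hxa 0)]
  have := norm_sol hm φ (fun i => (x i).1) hX (fun i => (x i).2.1)
    (Finset.univ.image fun j => (y j).1) (fun s => Nm φ m (s + (x 0).1) / (x 0).2.1) (by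
      intro s hs i
      obtain ⟨j, _, rfl⟩ := Finset.mem_image.1 hs
      rw [hb]
      have := hN i j
      rw [add_comm] at this
      exact this)
  rw [Finset.card_image_of_injective _ hY, Finset.card_univ, Fintype.card_fin] at this
  omega

end Pool.Agent.J4H82.SN
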