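import Pool.Agent.J4H82.SN.Defs

/-!
# Equality protocols and rectangles
-/

set_option autoImplicit false

namespace Pool.Agent.J4H82.SN

namespace Prot

variable {A B : Type}

/-- the weight of a protocol: accepting leaves count with a factor two for each answer no -/
def weight : Prot A B → ℕ
  | answer r => if r then 1 else 0
  | ask _ _ yes no => yes.weight + 2 * no.weight

theorem weight_le (π : Prot A B) : π.weight ≤ 3 ^ π.cost := by
  induction π with
  | answer r =>
    simp only [weight, cost]
    split <;> norm_num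
  | ask f g yes no ih1 ih2 =>
    simp only [weight, cost]
    have h3 : (3 : ℕ) ^ yes.cost ≤ 3 ^ max yes.cost no.cost :=
      Nat.pow_le_pow_right (by norm_num) (le_max_left _ _)
    have h4 : (3 : ℕ) ^ no.cost ≤ 3 ^ max yes.cost no.cost :=
      Nat.pow_le_pow_right (by norm_num) (le_max_right _ _)
    rw [pow_add, pow_one]
    omega

/-- the same protocol on other inputs -/
def pull {A' B' : Type} (α : A' → A) (β : B' → B) : Prot A B → Prot A' B'
  | answer r => answer r
  | ask f g yes no => ask (fun a => f (α a)) (fun b => g (β b)) (yes.pull α β) (no.pull α β)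

theorem pull_cost {A' B' : Type} (α : A' → A) (β : B' → B) (π : Prot A B) :
    (π.pull α β).cost = π.cost := by
  induction π with
  | answer r => rfl
  | ask f g yes no ih1 ih2 => simp only [pull, cost, ih1, ih2]

theorem pull_weight {A' B' : Type} (α : A' → A) (β : B' → B) (π : Prot A B) :
    (π.pull α β).weight = π.weight := by
  induction π with
  | answer r => rfl
  | ask f g yes no ih1 ih2 => simp only [pull, weight, ih1, ih2]

theorem pull_accepts {A' B' : Type} (α : A' → A) (β : B' → B) (π : Prot A B) (a : A') (b : B') :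
    (π.pull α β).Accepts a b ↔ π.Accepts (α a) (β b) := by
  induction π with
  | answer r => rfl
  | ask f g yes no ih1 ih2 => simp only [pull, Accepts, ih1, ih2]

end Prot

variable {A B : Type}

/-- every complete rectangle of the relation inside `P × Q` has a side of at most `k` elements -/
def Thin (R : A → B → Prop) (P : Finset A) (Q : Finset B) (k : ℕ) : Prop :=
  ∀ P' ⊆ P, ∀ Q' ⊆ Q, (∀ a ∈ P', ∀ b ∈ Q', R a b) → P'.card ≤ k ∨ Q'.card ≤ k

theorem Thin.mono {R R' : A → B → Prop} {P P' : Finset A} {Q Q' : Finset B} {k : ℕ}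
    (h : Thin R P Q k) (hP : P' ⊆ P) (hQ : Q' ⊆ Q) (hR : ∀ a ∈ P', ∀ b ∈ Q', R' a b → R a b) :
    Thin R' P' Q' k := by
  intro P₁ h1 Q₁ h2 h3
  exact h P₁ (h1.trans hP) Q₁ (h2.trans hQ) fun a ha b hb => hR a (h1 ha) b (h2 hb) (h3 a ha b hb)

open Classical in
/-- the number of pairs of the relation in `P × Q` -/
noncomputable def num (R : A → B → Prop) (P : Finset A) (Q : Finset B) : ℕ :=
  ((P ×ˢ Q).filter fun z => R z.1 z.2).card

open Classical in
theorem num_yes (f : A → ℕ) (g : B → ℕ) (R : A → B → Prop) (P : Finset A) (Q : Finset B) (C : ℕ)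
    (h : ∀ v : ℕ, num R (P.filter fun a => f a = v) (Q.filter fun b => g b = v) ≤
      C * ((P.filter fun a => f a = v).card + (Q.filter fun b => g b = v).card)) :
    num (fun a b => f a = g b ∧ R a b) P Q ≤ C * (P.card + Q.card) := by
  set V := P.image f ∪ Q.image g with hV
  have h1 : num (fun a b => f a = g b ∧ R a b) P Q ≤
      ∑ v ∈ V, num R (P.filter fun a => f a = v) (Q.filter fun b => g b = v) := by
    unfold num
    rw [Finset.card_eq_sum_card_fiberwise (f := fun z : A × B => f z.1) (t := V)]
    · refine Finset.sum_le_sum fun v _ => Finset.card_le_card ?_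
      intro z hz
      simp only [Finset.mem_filter, Finset.mem_product] at hz ⊢
      obtain ⟨⟨⟨hz1, hz2⟩, hz3, hz4⟩, hz5⟩ := hz
      exact ⟨⟨⟨hz1, hz5⟩, ⟨hz2, by rw [← hz3, hz5]⟩⟩, hz4⟩
    · intro z hz
      have hz := Finset.mem_coe.1 hz
      simp only [Finset.mem_filter, Finset.mem_product] at hz
      exact Finset.mem_coe.2 (Finset.mem_union_left _ (Finset.mem_image_of_mem f hz.1.1))
  have h2 : ∑ v ∈ V, (P.filter fun a => f a = v).card = P.card := by
    rw [← Finset.card_eq_sum_card_fiberwise (f := f) (t := V)]
    intro a ha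
    exact Finset.mem_coe.2 (Finset.mem_union_left _ (Finset.mem_image_of_mem f ha))
  have h3 : ∑ v ∈ V, (Q.filter fun b => g b = v).card = Q.card := by
    rw [← Finset.card_eq_sum_card_fiberwise (f := g) (t := V)]
    intro b hb
    exact Finset.mem_coe.2 (Finset.mem_union_right _ (Finset.mem_image_of_mem g hb))
  calc num (fun a b => f a = g b ∧ R a b) P Q ≤
        ∑ v ∈ V, num R (P.filter fun a => f a = v) (Q.filter fun b => g b = v) := h1
    _ ≤ ∑ v ∈ V, C * ((P.filter fun a => f a = v).card + (Q.filter fun b => g b = v).card) :=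
        Finset.sum_le_sum fun v _ => h v
    _ = C * (P.card + Q.card) := by
        rw [← Finset.mul_sum, Finset.sum_add_distrib, h2, h3]

theorem card_sep {V : Finset ℕ} {x y : ℕ} (hx : x ∈ V) (hy : y ∈ V) (hxy : x ≠ y) :
    4 * (V.powerset.filter fun U => x ∈ U ∧ y ∉ U).card = 2 ^ V.card := by
  have h1 : (V.powerset.filter fun U => x ∈ U ∧ y ∉ U) = Finset.Icc {x} (V.erase y) := by
    ext U
    simp only [Finset.mem_filter, Finset.mem_powerset, Finset.mem_Icc,
      Finset.singleton_subset_iff, Finset.subset_erase]
    tauto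
  have h2 : ({x} : Finset ℕ) ⊆ V.erase y := by
    rw [Finset.singleton_subset_iff, Finset.mem_erase]
    exact ⟨hxy, hx⟩
  rw [h1, Finset.card_Icc_finset h2, Finset.card_erase_of_mem hy, Finset.card_singleton]
  have h3 : 2 ≤ V.card := by
    have h6 : ({x, y} : Finset ℕ).card = 2 := Finset.card_pair hxy
    rw [← h6]
    apply Finset.card_le_card
    intro z hz
    rw [Finset.mem_insert, Finset.mem_singleton] at hz
    rcases hz with rfl | rfl
    · exact hx
    · exact hy
  obtain ⟨n, hn⟩ : ∃ n, V.card = n + 2 := ⟨V.card - 2, by omega⟩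
  rw [hn]
  have : n + 2 - 1 - 1 = n := by omega
  rw [this]
  ring

theorem card_in {V : Finset ℕ} {x : ℕ} (hx : x ∈ V) :
    2 * (V.powerset.filter fun U => x ∈ U).card = 2 ^ V.card := by
  have h1 : (V.powerset.filter fun U => x ∈ U) = Finset.Icc {x} V := by
    ext U
    simp only [Finset.mem_filter, Finset.mem_powerset, Finset.mem_Icc,
      Finset.singleton_subset_iff]
    tauto
  rw [h1, Finset.card_Icc_finset (Finset.singleton_subset_iff.2 hx), Finset.card_singleton]
  have h3 : 0 < V.card := Finset.card_pos.2 ⟨x, hx⟩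
  obtain ⟨n, hn⟩ : ∃ n, V.card = n + 1 := ⟨V.card - 1, by omega⟩
  rw [hn]
  have : n + 1 - 1 = n := by omega
  rw [this]
  ring

theorem card_out {V : Finset ℕ} {x : ℕ} (hx : x ∈ V) :
    2 * (V.powerset.filter fun U => x ∉ U).card = 2 ^ V.card := by
  have h1 := card_in hx
  have h2 := Finset.card_filter_add_card_filter_not (s := V.powerset) (fun U => x ∈ U)
  rw [Finset.card_powerset] at h2
  omega

open Classical in
theorem num_no (f : A → ℕ) (g : B → ℕ) (R : A → B → Prop) (P : Finset A) (Q : Finset B) (C : ℕ)
    (h : ∀ U : Finset ℕ, num R (P.filter fun a => f a ∈ U) (Q.filter fun b => g b ∉ U) ≤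
      C * ((P.filter fun a => f a ∈ U).card + (Q.filter fun b => g b ∉ U).card)) :
    num (fun a b => f a ≠ g b ∧ R a b) P Q ≤ 2 * C * (P.card + Q.card) := by
  set V := P.image f ∪ Q.image g with hV
  have hfV : ∀ a ∈ P, f a ∈ V := fun a ha =>
    Finset.mem_union_left _ (Finset.mem_image_of_mem f ha)
  have hgV : ∀ b ∈ Q, g b ∈ V := fun b hb =>
    Finset.mem_union_right _ (Finset.mem_image_of_mem g hb)
  -- double counting of the pairs
  have h1 : 2 ^ V.card * num (fun a b => f a ≠ g b ∧ R a b) P Q ≤
      4 * ∑ U ∈ V.powerset, num R (P.filter fun a => f a ∈ U) (Q.filter fun b => g b ∉ U) := by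
    set N := (P ×ˢ Q).filter fun z : A × B => f z.1 ≠ g z.2 ∧ R z.1 z.2 with hN
    have e1 : ∀ U : Finset ℕ, (N.filter fun z => f z.1 ∈ U ∧ g z.2 ∉ U).card ≤
        num R (P.filter fun a => f a ∈ U) (Q.filter fun b => g b ∉ U) := by
      intro U
      unfold num
      apply Finset.card_le_card
      intro z hz
      simp only [hN, Finset.mem_filter, Finset.mem_product] at hz ⊢
      tauto
    calc 2 ^ V.card * num (fun a b => f a ≠ g b ∧ R a b) P Q =
          ∑ z ∈ N, 2 ^ V.card := by
            rw [Finset.sum_const, smul_eq_mul, mul_comm]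
            congr 1
            unfold num
            rw [hN]
            congr
      _ = ∑ z ∈ N, 4 * (V.powerset.filter fun U => f z.1 ∈ U ∧ g z.2 ∉ U).card := by
            refine Finset.sum_congr rfl fun z hz => ?_
            rw [hN, Finset.mem_filter, Finset.mem_product] at hz
            exact (card_sep (hfV _ hz.1.1) (hgV _ hz.1.2) hz.2.1).symm
      _ = 4 * ∑ U ∈ V.powerset, (N.filter fun z => f z.1 ∈ U ∧ g z.2 ∉ U).card := by
            rw [← Finset.mul_sum]
            congr 1
            simp only [Finset.card_filter]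
            exact Finset.sum_comm
      _ ≤ _ := Nat.mul_le_mul_left _ (Finset.sum_le_sum fun U _ => e1 U)
  have h2 : 2 * ∑ U ∈ V.powerset, (P.filter fun a => f a ∈ U).card = 2 ^ V.card * P.card := by
    have : ∑ U ∈ V.powerset, (P.filter fun a => f a ∈ U).card =
        ∑ a ∈ P, (V.powerset.filter fun U => f a ∈ U).card := by
      simp only [Finset.card_filter]
      exact Finset.sum_comm
    rw [this, Finset.mul_sum, Finset.sum_congr rfl fun a ha => card_in (hfV a ha),
      Finset.sum_const, smul_eq_mul, mul_comm]
  have h3 : 2 * ∑ U ∈ V.powerset, (Q.filter fun b => g b ∉ U).card = 2 ^ V.card * Q.card := by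
    have : ∑ U ∈ V.powerset, (Q.filter fun b => g b ∉ U).card =
        ∑ b ∈ Q, (V.powerset.filter fun U => g b ∉ U).card := by
      simp only [Finset.card_filter]
      exact Finset.sum_comm
    rw [this, Finset.mul_sum, Finset.sum_congr rfl fun b hb => card_out (hgV b hb),
      Finset.sum_const, smul_eq_mul, mul_comm]
  have h4 : ∑ U ∈ V.powerset, num R (P.filter fun a => f a ∈ U) (Q.filter fun b => g b ∉ U) ≤
      C * (∑ U ∈ V.powerset, (P.filter fun a => f a ∈ U).card +
        ∑ U ∈ V.powerset, (Q.filter fun b => g b ∉ U).card) := by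
    rw [← Finset.sum_add_distrib, Finset.mul_sum]
    exact Finset.sum_le_sum fun U _ => h U
  have hpos : 0 < 2 ^ V.card := by positivity
  refine Nat.le_of_mul_le_mul_left ?_ hpos
  refine h1.trans ((Nat.mul_le_mul_left 4 h4).trans ?_)
  refine le_of_eq ?_
  calc 4 * (C * (∑ U ∈ V.powerset, (P.filter fun a => f a ∈ U).card +
        ∑ U ∈ V.powerset, (Q.filter fun b => g b ∉ U).card)) =
      2 * C * (2 * ∑ U ∈ V.powerset, (P.filter fun a => f a ∈ U).card +
        2 * ∑ U ∈ V.powerset, (Q.filter fun b => g b ∉ U).card) := by ring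
    _ = 2 ^ V.card * (2 * C * (P.card + Q.card)) := by
      rw [h2, h3]
      ring

/-- a relation decided by a protocol of small weight and without large complete rectangles has
few pairs -/
theorem num_le (π : Prot A B) : ∀ (P : Finset A) (Q : Finset B) (k : ℕ),
    Thin π.Accepts P Q k → num π.Accepts P Q ≤ π.weight * k * (P.card + Q.card) := by
  classical
  induction π with
  | answer r =>
    intro P Q k h
    cases r with
    | false =>
      have : num (Prot.answer (A := A) (B := B) false).Accepts P Q = 0 := by
        unfold num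
        rw [Finset.card_eq_zero, Finset.filter_eq_empty_iff]
        intro z _ hz
        exact Bool.false_ne_true hz
      rw [this]
      exact Nat.zero_le _
    | true =>
      have h1 : num (Prot.answer (A := A) (B := B) true).Accepts P Q ≤ P.card * Q.card := by
        unfold num
        rw [← Finset.card_product]
        exact Finset.card_filter_le _ _
      refine h1.trans ?_
      simp only [Prot.weight, if_true, one_mul]
      rcases h P (Finset.Subset.refl _) Q (Finset.Subset.refl _) (fun _ _ _ _ => rfl) with h2 | h2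
      · calc P.card * Q.card ≤ k * Q.card := Nat.mul_le_mul_right _ h2
          _ ≤ k * (P.card + Q.card) := Nat.mul_le_mul_left _ (Nat.le_add_left _ _)
      · calc P.card * Q.card ≤ P.card * k := Nat.mul_le_mul_left _ h2
          _ = k * P.card := mul_comm _ _
          _ ≤ k * (P.card + Q.card) := Nat.mul_le_mul_left _ (Nat.le_add_right _ _)
  | ask f g yes no ih1 ih2 =>
    intro P Q k h
    have hyes : num (fun a b => f a = g b ∧ yes.Accepts a b) P Q ≤
        yes.weight * k * (P.card + Q.card) := by
      apply num_yes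
      intro v
      apply ih1
      refine h.mono (Finset.filter_subset _ _) (Finset.filter_subset _ _) ?_
      intro a ha b hb hab
      rw [Finset.mem_filter] at ha hb
      exact Or.inl ⟨ha.2.trans hb.2.symm, hab⟩
    have hno : num (fun a b => f a ≠ g b ∧ no.Accepts a b) P Q ≤
        2 * (no.weight * k) * (P.card + Q.card) := by
      apply num_no
      intro U
      apply ih2
      refine h.mono (Finset.filter_subset _ _) (Finset.filter_subset _ _) ?_
      intro a ha b hb hab
      rw [Finset.mem_filter] at ha hb
      refine Or.inr ⟨fun h0 => ?_, hab⟩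
      exact hb.2 (h0 ▸ ha.2)
    have hsum : num (Prot.ask f g yes no).Accepts P Q ≤
        num (fun a b => f a = g b ∧ yes.Accepts a b) P Q +
          num (fun a b => f a ≠ g b ∧ no.Accepts a b) P Q := by
      unfold num
      refine le_trans (Finset.card_le_card ?_) (Finset.card_union_le _ _)
      intro z hz
      simp only [Finset.mem_filter, Finset.mem_union] at hz ⊢
      rcases hz.2 with h1 | h1
      · exact Or.inl ⟨hz.1, h1⟩
      · exact Or.inr ⟨hz.1, h1⟩
    refine hsum.trans ((Nat.add_le_add hyes hno).trans (le_of_eq ?_))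
    simp only [Prot.weight]
    ring

end Pool.Agent.J4H82.SN
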