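import Pool.Agent.J4H82.SN.Norm

/-!
# The bound is sharp for all sizes of the hints
-/

set_option autoImplicit false

namespace Pool.Agent.J4H82.SN

open Pool.Agent.W834.NG

/-- adjacency is decided by one equality question -/
def One {V K1 K2 : Type} (G : SimpleGraph V) (κ : V → K1) (μ : V → K2) : Prop :=
  ∃ (F1 : V → K2 → ℕ) (F2 : K1 → V → ℕ), ∀ u v, u ≠ v → (G.Adj u v ↔ F1 u (μ v) = F2 (κ u) v)

theorem One.described {V K1 K2 : Type} {G : SimpleGraph V} {κ : V → K1} {μ : V → K2}
    (h : One G κ μ) : ∃ π : Fin 1 → Prot (V × K2) (K1 × V), (∀ i, (π i).cost = 1) ∧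
      Described G κ μ 1 π := by
  obtain ⟨F1, F2, hF⟩ := h
  refine ⟨fun _ => Prot.ask (fun a => F1 a.1 a.2) (fun b => F2 b.1 b.2) (Prot.answer true)
    (Prot.answer false), fun _ => rfl, ?_⟩
  intro u v huv
  rw [hF u v huv]
  constructor
  · intro h
    refine ⟨0, ?_⟩
    simp only [Prot.Accepts, and_true, Bool.false_eq_true, and_false, or_false]
    exact h
  · rintro ⟨_, h⟩
    simp only [Prot.Accepts, and_true, Bool.false_eq_true, and_false, or_false] at h
    exact h

theorem One.hints {V K1 K2 K1' K2' : Type} [Nonempty K1] [Nonempty K2] {G : SimpleGraph V}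
    {κ : V → K1} {μ : V → K2} (h : One G κ μ) (i1 : K1 ↪ K1') (i2 : K2 ↪ K2') :
    One G (fun v => i1 (κ v)) (fun v => i2 (μ v)) := by
  obtain ⟨F1, F2, hF⟩ := h
  refine ⟨fun u y => F1 u (Function.invFun i2 y), fun x v => F2 (Function.invFun i1 x) v, ?_⟩
  intro u v huv
  rw [hF u v huv]
  simp only [Function.leftInverse_invFun i1.injective (κ u),
    Function.leftInverse_invFun i2.injective (μ v)]

/-- disjoint copies of a graph -/
def copies {V : Type} (G : SimpleGraph V) (N : ℕ) : SimpleGraph (Fin N × V) where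
  Adj a b := a.1 = b.1 ∧ G.Adj a.2 b.2
  symm := ⟨fun _ _ h => ⟨h.1.symm, h.2.symm⟩⟩
  loopless := ⟨fun a h => G.loopless.irrefl a.2 h.2⟩

theorem One.copies {V K1 K2 : Type} {G : SimpleGraph V} {κ : V → K1} {μ : V → K2}
    (h : One G κ μ) (N : ℕ) : One (copies G N) (fun a => κ a.2) (fun a => μ a.2) := by
  obtain ⟨F1, F2, hF⟩ := h
  refine ⟨fun a y => Nat.pair a.1 (F1 a.2 y), fun x a => Nat.pair a.1 (F2 x a.2), ?_⟩
  rintro ⟨i, u⟩ ⟨j, v⟩ huv
  show i = j ∧ G.Adj u v ↔ _
  simp only [Nat.pair_eq_pair]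
  constructor
  · rintro ⟨rfl, h⟩
    exact ⟨rfl, (hF u v h.ne).1 h⟩
  · rintro ⟨h1, h2⟩
    have h3 : i = j := Fin.ext h1
    subst h3
    refine ⟨rfl, (hF u v ?_).2 h2⟩
    intro h4
    exact huv (by rw [h4])

theorem noK_copies {V : Type} {G : SimpleGraph V} {s t : ℕ} (hs : 0 < s) (ht : 0 < t)
    (h : NoK G s t) (N : ℕ) : NoK (copies G N) s t := by
  rintro ⟨x, y, hx, hy, hadj⟩
  apply h
  have h1 : ∀ i j, (x i).1 = (y j).1 := fun i j => (hadj i j).1
  refine ⟨fun i => (x i).2, fun j => (y j).2, ?_, ?_, fun i j => (hadj i j).2⟩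
  · intro a b hab
    exact hx (Prod.ext ((h1 a ⟨0, ht⟩).trans (h1 b ⟨0, ht⟩).symm) hab)
  · intro a b hab
    exact hy (Prod.ext ((h1 ⟨0, hs⟩ a).symm.trans (h1 ⟨0, hs⟩ b)) hab)

open Classical in
theorem One.map {V W K1 K2 : Type} [Nonempty K1] [Nonempty K2] {G : SimpleGraph V} {κ : V → K1}
    {μ : V → K2} (h : One G κ μ) (e : V ↪ W) :
    ∃ (κ' : W → K1) (μ' : W → K2), One (G.map e) κ' μ' := by
  obtain ⟨F1, F2, hF⟩ := h
  let inv : W → Option V := fun w => if hw : ∃ u, e u = w then some hw.choose else none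
  have hinv : ∀ u, inv (e u) = some u := by
    intro u
    have hu : ∃ u', e u' = e u := ⟨u, rfl⟩
    simp only [inv]
    rw [dif_pos hu]
    exact congrArg some (e.injective hu.choose_spec)
  have hinv' : ∀ w u, inv w = some u → e u = w := by
    intro w u h
    simp only [inv] at h
    split_ifs at h with hw
    rw [Option.some.injEq] at h
    rw [← h]
    exact hw.choose_spec
  refine ⟨fun w => ((inv w).map κ).getD (Classical.arbitrary K1),
    fun w => ((inv w).map μ).getD (Classical.arbitrary K2),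
    fun w y => ((inv w).map fun u => F1 u y + 2).getD 0,
    fun x w => ((inv w).map fun v => F2 x v + 2).getD 1, ?_⟩
  intro w w' hne
  rcases hw : inv w with _ | u
  · constructor
    · intro h
      rw [SimpleGraph.map_adj] at h
      obtain ⟨u, v, _, hu, _⟩ := h
      rw [← hu, hinv] at hw
      exact absurd hw (by simp)
    · intro h
      simp only [hw, Option.map_none, Option.getD_none] at h
      rcases hw' : inv w' with _ | v
      · rw [hw'] at h
        simp at h
      · rw [hw'] at h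
        simp at h
  · rcases hw' : inv w' with _ | v
    · constructor
      · intro h
        rw [SimpleGraph.map_adj] at h
        obtain ⟨u, v, _, _, hv⟩ := h
        rw [← hv, hinv] at hw'
        exact absurd hw' (by simp)
      · intro h
        simp [hw, hw'] at h
    · have h1 := hinv' _ _ hw
      have h2 := hinv' _ _ hw'
      have huv : u ≠ v := by
        intro h0
        apply hne
        rw [← h1, ← h2, h0]
      rw [← h1, ← h2, SimpleGraph.map_adj_apply, hF u v huv]
      simp only [hinv, Option.map_some, Option.getD_some]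
      omega

theorem edges_map {V W : Type} [Fintype V] [Fintype W] (G : SimpleGraph V) (e : V ↪ W) (D : ℕ)
    (hD : ∀ v : V, ∃ s : Finset V, D ≤ s.card ∧ ∀ w ∈ s, G.Adj v w) :
    D * Fintype.card V ≤ 2 * Nat.card (G.map e).edgeSet := by
  classical
  rw [Nat.card_eq_fintype_card, ← SimpleGraph.edgeFinset_card,
    ← SimpleGraph.sum_degrees_eq_twice_card_edges]
  have h2 : ∀ v : V, D ≤ (G.map e).degree (e v) := by
    intro v
    obtain ⟨s, hs, hadj⟩ := hD v
    refine hs.trans ?_
    rw [← SimpleGraph.card_neighborFinset_eq_degree, ← Finset.card_map e]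
    apply Finset.card_le_card
    intro w hw
    rw [Finset.mem_map] at hw
    obtain ⟨u, hu, rfl⟩ := hw
    rw [SimpleGraph.mem_neighborFinset, SimpleGraph.map_adj_apply]
    exact hadj u hu
  calc D * Fintype.card V = ∑ v : V, D := by simp [mul_comm]
    _ ≤ ∑ v : V, (G.map e).degree (e v) := Finset.sum_le_sum fun v _ => h2 v
    _ = ∑ w ∈ Finset.univ.map e, (G.map e).degree w := by rw [Finset.sum_map]
    _ ≤ ∑ w, (G.map e).degree w := Finset.sum_le_sum_of_subset (Finset.subset_univ _)

/-- the norm graph is decided by one question -/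
theorem one_PG {K : Type} [Field K] [Fintype K] (φ : K →+* K) (m : ℕ) :
    One (PG φ m) (fun v : K × AA φ => v.2) (fun v => v.1) := by
  classical
  refine ⟨fun u y => Fintype.equivFin K (Nm φ m (u.1 + y)),
    fun a v => Fintype.equivFin K (a.1 * v.2.1), ?_⟩
  intro u v huv
  constructor
  · intro h
    exact congrArg (fun z => (Fintype.equivFin K z : ℕ)) h.2
  · intro h
    exact ⟨huv, (Fintype.equivFin K).injective (Fin.ext h)⟩

/-- a perfect matching, up to one vertex -/
theorem matching (n : ℕ) (hn : 2 ≤ n) (s t : ℕ) (hs : 2 ≤ s) (ht : 2 ≤ t) :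
    ∃ G : SimpleGraph (Fin n), One G (fun _ => ()) (fun _ => ()) ∧
      (completeBipartiteGraph (Fin s) (Fin t)).Free G ∧ n ≤ 3 * Nat.card G.edgeSet := by
  classical
  let E : SimpleGraph (Fin 2) := ⊤
  have hE : One E (fun _ => ()) (fun _ => ()) :=
    ⟨fun _ _ => 0, fun _ _ => 0, fun u v huv => by simp [E, huv]⟩
  have hno : NoK E s t := by
    rintro ⟨x, y, hx, hy, hadj⟩
    have h1 := hadj ⟨0, by omega⟩ ⟨0, by omega⟩
    have h2 := hadj ⟨1, by omega⟩ ⟨0, by omega⟩
    have h3 : x ⟨0, by omega⟩ ≠ x ⟨1, by omega⟩ := by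
      intro h
      have := hx h
      simp at this
    simp only [E, SimpleGraph.top_adj] at h1 h2
    omega
  have h1 := hE.copies (n / 2)
  have hcard : Fintype.card (Fin (n / 2) × Fin 2) ≤ Fintype.card (Fin n) := by
    rw [Fintype.card_prod, Fintype.card_fin, Fintype.card_fin, Fintype.card_fin]
    omega
  obtain ⟨e⟩ : Nonempty (Fin (n / 2) × Fin 2 ↪ Fin n) :=
    Function.Embedding.nonempty_of_card_le hcard
  obtain ⟨κ', μ', h2⟩ := h1.map e
  have hκ : κ' = fun _ => () := by funext x; rfl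
  have hμ : μ' = fun _ => () := by funext x; rfl
  rw [hκ, hμ] at h2
  refine ⟨(copies E (n / 2)).map e, h2, ?_, ?_⟩
  · exact free_of_noK (noK_map (by omega) (by omega) (noK_copies (by omega) (by omega) hno _) e) t
      le_rfl
  · have h3 := edges_map (copies E (n / 2)) e 1 (by
      rintro ⟨i, v⟩
      refine ⟨{(i, v + 1)}, by simp, ?_⟩
      intro w hw
      rw [Finset.mem_singleton] at hw
      subst hw
      refine ⟨rfl, ?_⟩
      show (⊤ : SimpleGraph (Fin 2)).Adj v (v + 1)
      rw [SimpleGraph.top_adj]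
      fin_cases v <;> decide)
    rw [Fintype.card_prod, Fintype.card_fin, Fintype.card_fin] at h3
    omega

/-- **Sharpness for all sizes.**  For `t > (s - 1)!` and all `M ≤ n ^ (1 - 1 / s)` there is a
`K_{s,t}`-free graph with `n` vertices and of the order of `n M` edges, decided by a single
equality question with hints that take at most `M` values. -/
theorem sharp_all (s t : ℕ) (hs : 2 ≤ s) (ht : (s - 1).factorial < t) (n M : ℕ) (hn : 2 ≤ n)
    (hM : 1 ≤ M) (hMn : M ^ s ≤ n ^ (s - 1)) :
    ∃ (G : SimpleGraph (Fin n)) (κ μ : Fin n → Fin M)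
      (π : Fin 1 → Prot (Fin n × Fin M) (Fin M × Fin n)),
      (∀ i, (π i).cost = 1) ∧ Described G κ μ 1 π ∧
      (completeBipartiteGraph (Fin s) (Fin t)).Free G ∧
      n * M ≤ 8 * 7 ^ (s - 1) * Nat.card G.edgeSet := by
  classical
  obtain ⟨m, rfl⟩ : ∃ m, s = m + 1 := ⟨s - 1, by omega⟩
  have hm : 0 < m := by omega
  rw [Nat.add_sub_cancel] at *
  have ht2 : 2 ≤ t := by
    have := Nat.factorial_pos m
    omega
  have : NeZero M := ⟨by omega⟩
  rcases lt_or_ge M (7 ^ m) with hlt | hge
  · obtain ⟨G, h1, h2, h3⟩ := matching n hn (m + 1) t (by omega) ht2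
    have i1 : Unit ↪ Fin M := ⟨fun _ => 0, fun _ _ _ => rfl⟩
    obtain ⟨π, h4, h5⟩ := (h1.hints i1 i1).described
    refine ⟨G, _, _, π, h4, h5, h2, ?_⟩
    calc n * M ≤ (3 * Nat.card G.edgeSet) * 7 ^ m := Nat.mul_le_mul h3 hlt.le
      _ = 3 * 7 ^ m * Nat.card G.edgeSet := by ring
      _ ≤ 8 * 7 ^ m * Nat.card G.edgeSet := by gcongr; norm_num
  · -- the largest `k` with `k ^ m ≤ M`
    obtain ⟨k, hk1, hk2⟩ : ∃ k : ℕ, k ^ m ≤ M ∧ M < (k + 1) ^ m := by
      refine ⟨Nat.findGreatest (fun k => k ^ m ≤ M) M, ?_, ?_⟩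
      · exact Nat.findGreatest_spec (P := fun k => k ^ m ≤ M) (Nat.zero_le M)
          (by simp [Nat.zero_pow hm])
      · by_contra hcon
        rw [not_lt] at hcon
        have h1 : Nat.findGreatest (fun k => k ^ m ≤ M) M + 1 ≤ M := by
          refine le_trans ?_ hcon
          exact Nat.le_self_pow (by omega) _
        exact Nat.findGreatest_is_greatest (Nat.lt_succ_self _) h1 hcon
    have hk : 7 ≤ k := by
      by_contra hcon
      have h0 : k + 1 ≤ 7 := by omega
      have h1 : (k + 1) ^ m ≤ 7 ^ m := Nat.pow_le_pow_left h0 m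
      omega
    obtain ⟨p, hp, hp1, hp2⟩ := Nat.exists_prime_lt_and_le_two_mul (k / 2) (by omega)
    have hpk : p ≤ k := by omega
    have hkp : k + 1 ≤ 2 * p := by omega
    have hp4 : 4 ≤ p := by omega
    have : Fact p.Prime := ⟨hp⟩
    have hpM : p ^ m ≤ M := (Nat.pow_le_pow_left hpk m).trans hk1
    have hMp : M ≤ 2 ^ m * p ^ m := by
      rw [← mul_pow]
      exact hk2.le.trans (Nat.pow_le_pow_left hkp m)
    have hpn : p ^ (m + 1) ≤ n := by
      have h1 : (p ^ (m + 1)) ^ m ≤ n ^ m := by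
        calc (p ^ (m + 1)) ^ m = (p ^ m) ^ (m + 1) := by rw [← pow_mul, ← pow_mul, mul_comm]
          _ ≤ M ^ (m + 1) := Nat.pow_le_pow_left hpM _
          _ ≤ n ^ m := hMn
      exact le_of_pow_le_pow_left₀ (by omega) (Nat.zero_le _) h1
    -- the norm graph
    let K := GaloisField p m
    have : Finite K := inferInstance
    let _ : Fintype K := Fintype.ofFinite K
    have hcard : Fintype.card K = p ^ m := by
      rw [← Nat.card_eq_fintype_card]
      exact GaloisField.card p m (by omega)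
    have hφ : ∀ x : K, (frobenius K p)^[m] x = x := by
      intro x
      rw [iterate_frobenius, ← hcard, FiniteField.pow_card]
    let _ : Fintype (AA (frobenius K p)) := Fintype.ofFinite _
    obtain ⟨h1, h2⟩ := AA_card p K
    have hAA : Fintype.card (AA (frobenius K p)) = p - 1 := le_antisymm h2 h1
    have hne : Nonempty (AA (frobenius K p)) := by
      rw [← Fintype.card_pos_iff, hAA]
      omega
    set n1 := p ^ m * (p - 1) with hn1
    have hn1pos : 0 < n1 := Nat.mul_pos (by positivity) (by omega)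
    have hn1n : n1 ≤ n := by
      refine le_trans ?_ hpn
      rw [pow_succ]
      exact Nat.mul_le_mul_left _ (by omega)
    set N := n / n1 with hN
    have hNn : N * n1 ≤ n := Nat.div_mul_le_self n n1
    have hNn' : n ≤ 2 * (N * n1) := by
      have h3 : 1 ≤ N := (Nat.one_le_div_iff hn1pos).2 hn1n
      have h4 : n < n1 * (N + 1) := by
        rw [hN]
        exact Nat.lt_mul_div_succ n hn1pos
      have h5 : n1 * (N + 1) = N * n1 + n1 := by ring
      have h6 : n1 ≤ N * n1 := Nat.le_mul_of_pos_left n1 h3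
      omega
    have hcardV : Fintype.card (Fin N × (K × AA (frobenius K p))) = N * n1 := by
      rw [Fintype.card_prod, Fintype.card_prod, hcard, hAA, Fintype.card_fin, hn1]
    obtain ⟨e⟩ : Nonempty (Fin N × (K × AA (frobenius K p)) ↪ Fin n) :=
      Function.Embedding.nonempty_of_card_le (by rw [hcardV, Fintype.card_fin]; exact hNn)
    obtain ⟨i1⟩ : Nonempty (AA (frobenius K p) ↪ Fin M) :=
      Function.Embedding.nonempty_of_card_le (by
        rw [hAA, Fintype.card_fin]
        refine le_trans ?_ hpM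
        exact (Nat.sub_le p 1).trans (Nat.le_self_pow (by omega) p))
    obtain ⟨i2⟩ : Nonempty (K ↪ Fin M) :=
      Function.Embedding.nonempty_of_card_le (by rw [hcard, Fintype.card_fin]; exact hpM)
    obtain ⟨κ', μ', h3⟩ := ((one_PG (frobenius K p) m).copies N).map e
    obtain ⟨π, h4, h5⟩ := (h3.hints i1 i2).described
    refine ⟨_, _, _, π, h4, h5, ?_, ?_⟩
    · exact free_of_noK (noK_map (by omega) (by omega) (noK_copies (by omega) (by omega)
        (PG_noK' _ hm le_rfl ht) _) e) t le_rfl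
    · have h6 := edges_map (copies (PG (frobenius K p) m) N) e (p ^ m - 2) (by
        rintro ⟨i, v⟩
        obtain ⟨S, hS, hadj⟩ := PG_deg (frobenius K p) m hm hφ v
        rw [hcard] at hS
        refine ⟨S.image fun w => (i, w), ?_, ?_⟩
        · rw [Finset.card_image_of_injective _ (fun a b h => (Prod.mk.injEq _ _ _ _ ▸ h).2)]
          exact hS
        · intro w hw
          rw [Finset.mem_image] at hw
          obtain ⟨w', hw', rfl⟩ := hw
          exact ⟨rfl, hadj w' hw'⟩)
      rw [hcardV] at h6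
      have h7 : 4 ≤ p ^ m := hp4.trans (Nat.le_self_pow (by omega) p)
      have h8 : p ^ m ≤ 2 * (p ^ m - 2) := by omega
      have h9 : (2 : ℕ) ^ m ≤ 7 ^ m := Nat.pow_le_pow_left (by norm_num) m
      set ed := Nat.card ((copies (PG (frobenius K p) m) N).map e).edgeSet with hed
      calc n * M ≤ (2 * (N * n1)) * (2 ^ m * p ^ m) := Nat.mul_le_mul hNn' hMp
        _ ≤ (2 * (N * n1)) * (7 ^ m * (2 * (p ^ m - 2))) := by gcongr
        _ = 4 * 7 ^ m * ((p ^ m - 2) * (N * n1)) := by ring
        _ ≤ 4 * 7 ^ m * (2 * ed) := Nat.mul_le_mul_left _ h6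
        _ = 8 * 7 ^ m * ed := by ring

end Pool.Agent.J4H82.SN
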